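import Pool.Agent.W5h53.CS.Mean

/-!
# Absolutely continuous convolution semigroups on amenable groups and on their duals
-/

set_option autoImplicit false
set_option linter.unusedSectionVars false

open MeasureTheory Filter Topology
open scoped ZeroAtInfty InnerProductSpace ComplexOrder BoundedContinuousFunction

namespace Pool.Agent.Results.MP_5d826d_an.AmenableSemigroups

open Pool.Agent.W5h53.CS

/-- A convolution semigroup of probability measures `μ t`, `t ≥ 0` (the values at negative `t` are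
irrelevant): `μ (s + t) = μ s * μ t` and `μ 0 = δ_e`. -/
structure IsConvolutionSemigroup {H : Type*} [Group H] [MeasurableSpace H]
    (μ : ℝ → Measure H) : Prop where
  prob : ∀ t, 0 ≤ t → IsProbabilityMeasure (μ t)
  add : ∀ s t, 0 ≤ s → 0 ≤ t → μ (s + t) = (μ s).mconv (μ t)
  zero : μ 0 = Measure.dirac 1

/-- `w*`-continuity: `∫ f dμ_t → f(e)` as `t → 0+`, for all continuous functions `f : H → ℂ`
vanishing at infinity. -/
def WStarContinuous {H : Type*} [Group H] [TopologicalSpace H] [MeasurableSpace H]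
    (μ : ℝ → Measure H) : Prop :=
  ∀ f : C₀(H, ℂ), Tendsto (fun t => ∫ x, f x ∂(μ t)) (𝓝[>] 0) (𝓝 (f 1))

/-- `φ` is positive definite: `Σ_{i,j} conj(c_i) c_j φ(x_i⁻¹ x_j) ≥ 0`. -/
def PositiveDefinite {H : Type*} [Group H] (φ : H → ℂ) : Prop :=
  ∀ (n : ℕ) (x : Fin n → H) (c : Fin n → ℂ),
    0 ≤ (∑ i, ∑ j, (starRingEnd ℂ) (c i) * c j * φ ((x i)⁻¹ * x j)).re ∧
      (∑ i, ∑ j, (starRingEnd ℂ) (c i) * c j * φ ((x i)⁻¹ * x j)).im = 0

/-- A convolution semigroup on the dual of `H`: continuous positive definite functions `φ t`,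
`t ≥ 0`, with `φ t e = 1`, `φ (s + t) = φ s φ t` and `φ 0 = 1`. -/
structure IsDualConvolutionSemigroup {H : Type*} [Group H] [TopologicalSpace H]
    (φ : ℝ → H → ℂ) : Prop where
  cont : ∀ t, 0 ≤ t → Continuous (φ t)
  posDef : ∀ t, 0 ≤ t → PositiveDefinite (φ t)
  one : ∀ t, 0 ≤ t → φ t 1 = 1
  add : ∀ s t, 0 ≤ s → 0 ≤ t → ∀ x, φ (s + t) x = φ s x * φ t x
  zero : ∀ x, φ 0 x = 1

/-- `w*`-continuity on the dual side: `∫ f φ_t dm → ∫ f dm` as `t → 0+`, for all `f ∈ L¹(H)`.  As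
`L¹(H)` is dense in `C*(H)` and `‖φ_t‖ = φ_t(e) = 1`, this is `φ_t → 1` in the weak* topology of
`B(H) = C*(H)*`. -/
def WStarContinuousDual {H : Type*} [MeasurableSpace H] (m : Measure H) (φ : ℝ → H → ℂ) : Prop :=
  ∀ f : H → ℂ, Integrable f m →
    Tendsto (fun t => ∫ x, f x * φ t x ∂m) (𝓝[>] 0) (𝓝 (∫ x, f x ∂m))

/-- The coefficient `⟨λ_s f, g⟩ = ∫ f(s⁻¹ x) conj(g(x)) dm(x)` of the left regular
representation. -/
noncomputable def coef {H : Type*} [Group H] [MeasurableSpace H] (m : Measure H) (f g : H → ℂ)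
    (s : H) : ℂ :=
  ∫ x, f (s⁻¹ * x) * (starRingEnd ℂ) (g x) ∂m

/-- The norm of `f` in `L²(H, m)`. -/
noncomputable def norm2 {H : Type*} [MeasurableSpace H] (m : Measure H) (f : H → ℂ) : ℝ :=
  (eLpNorm f 2 m).toReal

/-- The Fourier algebra `A(H)`: the functions `u(s) = Σ_n ⟨λ_s f_n, g_n⟩` with `f_n, g_n` in
`L²(H)` and `Σ_n ‖f_n‖ ‖g_n‖ < ∞`. -/
def InFourierAlgebra {H : Type*} [Group H] [MeasurableSpace H] (m : Measure H) (u : H → ℂ) :
    Prop :=
  ∃ f g : ℕ → H → ℂ, (∀ n, MemLp (f n) 2 m) ∧ (∀ n, MemLp (g n) 2 m) ∧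
    Summable (fun n => norm2 m (f n) * norm2 m (g n)) ∧
    ∀ s, HasSum (fun n => coef m (f n) (g n) s) (u s)

/-- The operator norm `‖λ(μ) - λ(ν)‖` on `L²(H)` for finite measures `μ` and `ν`, where
`λ(μ) = ∫ λ_s dμ(s)`: the supremum of `|⟨(λ(μ) - λ(ν)) f, g⟩|` over `‖f‖ ≤ 1` and `‖g‖ ≤ 1`, with
`⟨λ(μ) f, g⟩ = ∫ ⟨λ_s f, g⟩ dμ(s)`.  The norm of `λ(μ)` is `regularNorm m μ 0`. -/
noncomputable def regularNorm {H : Type*} [Group H] [MeasurableSpace H] (m μ ν : Measure H) : ℝ :=
  sSup {r | ∃ f g : H → ℂ, MemLp f 2 m ∧ MemLp g 2 m ∧ norm2 m f ≤ 1 ∧ norm2 m g ≤ 1 ∧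
    r = ‖∫ s, coef m f g s ∂μ - ∫ s, coef m f g s ∂ν‖}

/-- Bounded continuous real functions. -/
def IsBoundedContinuous {H : Type*} [TopologicalSpace H] (f : H → ℝ) : Prop :=
  Continuous f ∧ ∃ C, ∀ x, |f x| ≤ C

/-- Amenability of `H`: there is a left invariant mean on the bounded continuous functions, that
is, a positive linear functional `M` on `C_b(H)` with `M(1) = 1` and `M(f(s ·)) = M(f)`. -/
def IsAmenable (H : Type*) [Group H] [TopologicalSpace H] : Prop :=
  ∃ M : (H → ℝ) → ℝ, M (fun _ => 1) = 1 ∧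
    (∀ f, IsBoundedContinuous f → (∀ x, 0 ≤ f x) → 0 ≤ M f) ∧
    (∀ f g, IsBoundedContinuous f → IsBoundedContinuous g →
      M (fun x => f x + g x) = M f + M g) ∧
    (∀ (c : ℝ) (f : H → ℝ), IsBoundedContinuous f → M (fun x => c * f x) = c * M f) ∧
    ∀ (s : H) (f : H → ℝ), IsBoundedContinuous f → M (fun x => f (s * x)) = M f

section lemmas

variable {H : Type*} [Group H] [TopologicalSpace H] [IsTopologicalGroup H] [LocallyCompactSpace H]
  [SecondCountableTopology H] [T2Space H] [MeasurableSpace H] [BorelSpace H] (m : Measure H)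
  [m.IsHaarMeasure]

theorem coef_toLp {f g : H → ℂ} (hf : MemLp f 2 m) (hg : MemLp g 2 m) (s : H) :
    ⟪hg.toLp g, lam m s (hf.toLp f)⟫_ℂ = coef m f g s := by
  have hqmp := (measurePreserving_mul_left m s⁻¹).quasiMeasurePreserving
  rw [coef_integral, coef]
  apply integral_congr_ae
  filter_upwards [hg.coeFn_toLp, hqmp.ae hf.coeFn_toLp] with x h1 h2
  rw [h1, h2, mul_comm]

theorem norm2_toLp {f : H → ℂ} (hf : MemLp f 2 m) : ‖hf.toLp f‖ = norm2 m f := Lp.norm_toLp f hf

/-- `regularNorm` is the operator norm. -/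
theorem regularNorm_eq (μ ν : Measure H) [IsFiniteMeasure μ] [IsFiniteMeasure ν] :
    regularNorm m μ ν = ‖lamF m μ - lamF m ν‖ := by
  have key : ∀ {f g : H → ℂ} (hf : MemLp f 2 m) (hg : MemLp g 2 m),
      ∫ s, coef m f g s ∂μ - ∫ s, coef m f g s ∂ν =
        ⟪hg.toLp g, (lamF m μ - lamF m ν) (hf.toLp f)⟫_ℂ := by
    intro f g hf hg
    show _ = ⟪hg.toLp g, lamF m μ (hf.toLp f) - lamF m ν (hf.toLp f)⟫_ℂ
    rw [inner_sub_right, lamF_inner, lamF_inner]
    simp only [coef_toLp]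
  have hbdd : ∀ r ∈ {r | ∃ f g : H → ℂ, MemLp f 2 m ∧ MemLp g 2 m ∧ norm2 m f ≤ 1 ∧
      norm2 m g ≤ 1 ∧ r = ‖∫ s, coef m f g s ∂μ - ∫ s, coef m f g s ∂ν‖},
      r ≤ ‖lamF m μ - lamF m ν‖ := by
    rintro r ⟨f, g, hf, hg, hf1, hg1, rfl⟩
    rw [key hf hg]
    rw [← norm2_toLp m hf] at hf1
    rw [← norm2_toLp m hg] at hg1
    calc ‖⟪hg.toLp g, (lamF m μ - lamF m ν) (hf.toLp f)⟫_ℂ‖ ≤
        ‖hg.toLp g‖ * ‖(lamF m μ - lamF m ν) (hf.toLp f)‖ := norm_inner_le_norm _ _
      _ ≤ 1 * (‖lamF m μ - lamF m ν‖ * 1) := by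
          gcongr
          exact ((lamF m μ - lamF m ν).le_opNorm _).trans (by gcongr)
      _ = _ := by ring
  apply le_antisymm
  · apply csSup_le
    · refine ⟨_, 0, 0, MemLp.zero, MemLp.zero, ?_, ?_, rfl⟩
      · simp [norm2]
      · simp [norm2]
    · exact hbdd
  · have h0 : 0 ≤ regularNorm m μ ν := by
      apply Real.sSup_nonneg
      rintro r ⟨f, g, -, -, -, -, rfl⟩
      exact norm_nonneg _
    refine ContinuousLinearMap.opNorm_le_bound _ h0 fun f => ?_
    by_cases hv : ‖(lamF m μ - lamF m ν) f‖ = 0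
    · rw [hv]
      positivity
    · have hf0 : ‖f‖ ≠ 0 := by
        intro h
        rw [norm_eq_zero] at h
        rw [h, map_zero, norm_zero] at hv
        exact hv rfl
      obtain ⟨a, ha⟩ : ∃ a : Lp ℂ 2 m, a = ((‖f‖⁻¹ : ℝ) : ℂ) • f := ⟨_, rfl⟩
      obtain ⟨b, hb⟩ : ∃ b : Lp ℂ 2 m, b = ((‖(lamF m μ - lamF m ν) f‖⁻¹ : ℝ) : ℂ) •
        (lamF m μ - lamF m ν) f := ⟨_, rfl⟩
      have ha1 : ‖a‖ = 1 := by
        rw [ha, norm_smul, Complex.norm_real, norm_inv, norm_norm, inv_mul_cancel₀ hf0]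
      have hb1 : ‖b‖ = 1 := by
        rw [hb, norm_smul, Complex.norm_real, norm_inv, norm_norm, inv_mul_cancel₀ hv]
      have h1 : ‖⟪b, (lamF m μ - lamF m ν) a⟫_ℂ‖ ≤ regularNorm m μ ν := by
        apply le_csSup ⟨_, hbdd⟩
        refine ⟨a, b, Lp.memLp a, Lp.memLp b, ?_, ?_, ?_⟩
        · rw [← norm2_toLp m (Lp.memLp a), Lp.toLp_coeFn, ha1]
        · rw [← norm2_toLp m (Lp.memLp b), Lp.toLp_coeFn, hb1]
        · rw [key (Lp.memLp a) (Lp.memLp b), Lp.toLp_coeFn, Lp.toLp_coeFn]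
      have h2 : ⟪b, (lamF m μ - lamF m ν) a⟫_ℂ =
          ((‖(lamF m μ - lamF m ν) f‖ * ‖f‖⁻¹ : ℝ) : ℂ) := by
        rw [ha, hb, map_smul, inner_smul_left, inner_smul_right, Complex.conj_ofReal,
          inner_self_eq_norm_sq_to_K]
        have h3 : ((‖(lamF m μ - lamF m ν) f‖ : ℝ) : ℂ) ≠ 0 := by exact_mod_cast hv
        have h4 : ((RCLike.ofReal ‖(lamF m μ - lamF m ν) f‖ : ℂ)) =
          ((‖(lamF m μ - lamF m ν) f‖ : ℝ) : ℂ) := rfl
        rw [h4]
        push_cast
        field_simp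
      rw [h2, Complex.norm_real, Real.norm_eq_abs, abs_of_nonneg (by positivity)] at h1
      have h5 : 0 < ‖f‖ := lt_of_le_of_ne (norm_nonneg _) (Ne.symm hf0)
      rw [← div_eq_mul_inv, div_le_iff₀ h5] at h1
      exact h1

theorem inFourierAlgebra_iff (u : H → ℂ) : InFourierAlgebra m u ↔ InA m u := by
  constructor
  · rintro ⟨f, g, hf, hg, hfg, hs⟩
    refine ⟨fun n => (hf n).toLp, fun n => (hg n).toLp, ?_, fun s => ?_⟩
    · simpa only [norm2_toLp] using hfg
    · simpa only [coef_toLp] using hs s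
  · rintro ⟨f, g, hfg, hs⟩
    have h1 : ∀ f : Lp ℂ 2 m, norm2 m f = ‖f‖ := by
      intro f
      rw [← norm2_toLp m (Lp.memLp f), Lp.toLp_coeFn]
    have h2 : ∀ (f g : Lp ℂ 2 m) (s : H), coef m f g s = ⟪g, lam m s f⟫_ℂ := by
      intro f g s
      rw [← coef_toLp m (Lp.memLp f) (Lp.memLp g), Lp.toLp_coeFn, Lp.toLp_coeFn]
    refine ⟨fun n => f n, fun n => g n, fun n => Lp.memLp _, fun n => Lp.memLp _, ?_, fun s => ?_⟩
    · simpa only [h1] using hfg
    · simpa only [h2] using hs s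

theorem positiveDefinite_of_PD {G : Type*} [Group G] {φ : G → ℂ} (h : PD φ) :
    PositiveDefinite φ := by
  intro n x c
  have h1 := (h n x).dotProduct_mulVec_nonneg c
  have h2 : star c ⬝ᵥ (Matrix.mulVec (Matrix.of fun i j => φ ((x i)⁻¹ * x j)) c) =
      ∑ i, ∑ j, (starRingEnd ℂ) (c i) * c j * φ ((x i)⁻¹ * x j) := by
    show ∑ i, star (c i) * ∑ j, φ ((x i)⁻¹ * x j) * c j = _
    apply Finset.sum_congr rfl
    intro i _
    rw [Finset.mul_sum]
    apply Finset.sum_congr rfl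
    intro j _
    show (starRingEnd ℂ) (c i) * (φ ((x i)⁻¹ * x j) * c j) = _
    ring
  rw [h2, Complex.nonneg_iff] at h1
  exact ⟨h1.1, h1.2.symm⟩

theorem reiter_of_mean (h : IsAmenable H) : ReiterTwo m := by
  obtain ⟨M, h1, h2, h3, h4, h5⟩ := h
  have hb : ∀ f : H →ᵇ ℝ, IsBoundedContinuous f := fun f =>
    ⟨f.continuous, ‖f‖, fun x => f.norm_coe_le_norm x⟩
  refine reiterTwo_of_isMean (M := { toFun := fun f => M f, map_add' := ?_, map_smul' := ?_ }) m
    ⟨h1, fun f hf => h2 f (hb f) hf, fun s f g hfg => ?_⟩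
  · intro f g
    exact h3 f g (hb f) (hb g)
  · intro c f
    exact h4 c f (hb f)
  · have h6 : (g : H → ℝ) = fun x => f (s * x) := funext hfg
    show M g = M f
    rw [h6]
    exact h5 s f (hb f)

end lemmas

/-- **Q2, positive answer to both parts.** Let `H` be a second countable amenable locally compact
group with left Haar measure `m`.  (a) There is a `w*`-continuous convolution semigroup `μ` on `H`
such that, for `t > 0`, `μ t` is absolutely continuous and `‖λ(μ t)‖ = 1`, and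
`‖λ(ω * μ t - μ t)‖ → 0` as `t → ∞` for every absolutely continuous probability measure `ω`.
(b) There is a `w*`-continuous convolution semigroup `φ` on the dual of `H` such that
`φ t ∈ A(H)` for `t > 0` and `ω φ t - φ t → 0` uniformly on `H` as `t → ∞`, for every positive
definite `ω ∈ A(H)` with `ω(e) = 1`. -/
theorem result (H : Type*) [Group H] [TopologicalSpace H] [IsTopologicalGroup H]
    [LocallyCompactSpace H] [SecondCountableTopology H] [T2Space H] [MeasurableSpace H]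
    [BorelSpace H] (m : Measure H) [m.IsHaarMeasure] (hH : IsAmenable H) :
    (∃ μ : ℝ → Measure H, IsConvolutionSemigroup μ ∧ WStarContinuous μ ∧
      (∀ t, 0 < t → μ t ≪ m ∧ regularNorm m (μ t) 0 = 1) ∧
      ∀ ω : Measure H, IsProbabilityMeasure ω → ω ≪ m →
        Tendsto (fun t => regularNorm m (ω.mconv (μ t)) (μ t)) atTop (𝓝 0)) ∧
    ∃ φ : ℝ → H → ℂ, IsDualConvolutionSemigroup φ ∧ WStarContinuousDual m φ ∧
      (∀ t, 0 < t → InFourierAlgebra m (φ t)) ∧
      ∀ ω : H → ℂ, InFourierAlgebra m ω → PositiveDefinite ω → ω 1 = 1 →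
        TendstoUniformly (fun t x => ω x * φ t x - φ t x) (fun _ => 0) atTop := by
  have hm : ReiterTwo m := reiter_of_mean m hH
  obtain ⟨f0, hf0, -⟩ := hm ∅ isCompact_empty 1 zero_lt_one
  have hnt : Nontrivial (Lp ℂ 2 m) := ⟨⟨f0, 0, fun h => by
    rw [h, norm_zero] at hf0
    exact zero_ne_one hf0⟩⟩
  constructor
  · obtain ⟨μ, h1, h2, h3, h4, h5, h6⟩ := partA m
    refine ⟨μ, ⟨fun t _ => h1 t, h3, h2⟩, fun f => ?_, fun t ht => ⟨h5 t ht, ?_⟩, fun ω hω hωm => ?_⟩
    · have hre := h4 (fun x => (f x).re) (Complex.continuous_re.comp f.continuous)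
        ((Complex.continuous_re.tendsto 0).comp (zero_at_infty f))
      have him := h4 (fun x => (f x).im) (Complex.continuous_im.comp f.continuous)
        ((Complex.continuous_im.tendsto 0).comp (zero_at_infty f))
      have hint : ∀ t, Integrable (fun x => f x) (μ t) := fun t => f.toBCF.integrable (μ t)
      have h6 : Tendsto (fun t => ((∫ x, (f x).re ∂(μ t) : ℝ) : ℂ) +
          ((∫ x, (f x).im ∂(μ t) : ℝ) : ℂ) * Complex.I) (𝓝[>] 0)
          (𝓝 (((f 1).re : ℂ) + ((f 1).im : ℂ) * Complex.I)) :=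
        ((Complex.continuous_ofReal.tendsto _).comp hre).add
          (((Complex.continuous_ofReal.tendsto _).comp him).mul_const Complex.I)
      rw [Complex.re_add_im] at h6
      refine h6.congr fun t => ?_
      have h7 := integral_re_add_im (hint t)
      exact h7
    · rw [regularNorm_eq, lamF_zero, sub_zero]
      exact lamF_norm_eq_one m hm (μ t)
    · have h7 := h6 ω hωm
      refine h7.congr fun t => ?_
      rw [regularNorm_eq, lamF_mconv]
  · obtain ⟨ψ, h1, h2, h3, h4, h5, h6⟩ := partB m hm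
    refine ⟨fun t s => Complex.exp (-(t * ψ s)), ⟨?_, ?_, ?_, ?_, ?_⟩, ?_, ?_, ?_⟩
    · intro t _
      exact Complex.continuous_exp.comp (continuous_const.mul h1).neg
    · intro t ht
      exact positiveDefinite_of_PD (h5 t ht)
    · intro t _
      show Complex.exp (-(t * ψ 1)) = 1
      rw [h2, mul_zero, neg_zero, Complex.exp_zero]
    · intro s t _ _ x
      show Complex.exp (-(((s + t : ℝ) : ℂ) * ψ x)) = Complex.exp (-(s * ψ x)) *
        Complex.exp (-(t * ψ x))
      rw [← Complex.exp_add]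
      congr 1
      push_cast
      ring
    · intro x
      show Complex.exp (-(((0 : ℝ) : ℂ) * ψ x)) = 1
      rw [Complex.ofReal_zero, zero_mul, neg_zero, Complex.exp_zero]
    · intro f hf
      apply tendsto_integral_filter_of_dominated_convergence (fun x => ‖f x‖)
      · refine Eventually.of_forall fun t => ?_
        exact hf.1.mul (Complex.continuous_exp.comp (continuous_const.mul h1).neg).aestronglyMeasurable
      · filter_upwards [self_mem_nhdsWithin] with t ht
        have ht0 : (0 : ℝ) < t := ht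
        refine Eventually.of_forall fun x => ?_
        rw [norm_mul, Complex.norm_exp, Complex.neg_re, Complex.re_ofReal_mul]
        have h7 : Real.exp (-(t * (ψ x).re)) ≤ 1 := by
          rw [Real.exp_le_one_iff]
          have := mul_nonneg ht0.le (h3 x)
          linarith
        exact mul_le_of_le_one_right (norm_nonneg _) h7
      · exact hf.norm
      · refine Eventually.of_forall fun x => ?_
        have h7 : Continuous fun t : ℝ => f x * Complex.exp (-(t * ψ x)) := by fun_prop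
        have h8 := (h7.tendsto 0).mono_left (nhdsWithin_le_nhds (s := Set.Ioi 0))
        simpa using h8
    · intro t ht
      exact (inFourierAlgebra_iff m _).2 (h4 t ht)
    · intro ω hω _ hω1
      have hω' : InA m ω := (inFourierAlgebra_iff m ω).1 hω
      obtain ⟨C, hC⟩ := hω'.bounded
      exact asymptotic h3 h6 hω'.continuous hC hω1

end Pool.Agent.Results.MP_5d826d_an.AmenableSemigroups
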